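import Pool.Agent.Helper99.ZZ.Zig
import Pool.Agent.Helper99.Eps.HWa

/-!
# Packet RV: the reversed bridge
-/

open Finset
open Pool.Agent.Helper98.Saw hiding iv
open Pool.Agent.Helper92.Eps
open Pool.Agent.Helper99.ZZ

namespace Pool.Agent.Helper90.ZZ

lemma bt_rv (a : List V) (t : ℤ) (h : BT t a) : BT t (rv a) := by
  unfold BT rv at *
  rw [List.pairwise_map, List.pairwise_reverse]
  refine h.imp ?_
  intro x y hxy
  rw [ro_apply, ro_apply]
  linarith

/-- **Packet RV.** -/
theorem RV : RV_stmt := by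
  refine ⟨?_, ?_, ?_, ?_⟩
  · intro T a ha
    exact ⟨Pool.Agent.Helper99.Eps.IsBr_rv ha, Pool.Agent.Helper99.Eps.rv_rv ha.head,
      Pool.Agent.Helper99.Eps.rv_length a, Pool.Agent.Helper99.Eps.rv_last ha.head⟩
  · intro g T X Y _ hY
    exact Pool.Agent.Helper99.Eps.rv_bcat hY.head
  · intro g b hb
    exact Pool.Agent.Helper99.Eps.Irr_rv hb
  · intro T a t _ h
    exact bt_rv a t h

end Pool.Agent.Helper90.ZZ
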